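import Pool.Agent.helper53.ORT.Spec

set_option autoImplicit false

namespace Pool.Agent.ORT

open Module Pool.Agent.GS

theorem PPS_smul {F V : Type} [Field F] [AddCommGroup V] [Module F V]
    {B : LinearMap.BilinForm F V} (hB : Sym B) (h2 : (2 : F) ≠ 0) {u d : V} (c : F)
    (hu : B u u = 0) (hd : B u d = 0) : sg B (c • u) d = sg B u (c • d) := by
  have hu' : B (c • u) (c • u) = 0 := by
    simp only [map_smul, LinearMap.smul_apply, smul_eq_mul, hu, mul_zero]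
  have hd' : B (c • u) d = 0 := by
    simp only [map_smul, LinearMap.smul_apply, smul_eq_mul, hd, mul_zero]
  have hd'' : B u (c • d) = 0 := by
    simp only [map_smul, smul_eq_mul, hd, mul_zero]
  ext x
  rw [sg_apply hB h2 hu' hd', sg_apply hB h2 hu hd'']
  simp only [map_smul, LinearMap.smul_apply, smul_eq_mul]
  match_scalars <;> field_simp

theorem PPS (sgo : SGO_stmt) (sgu : SGU_stmt) : PPS_stmt := by
  intro F V _ _ _ _ B hF hB hn y ψ ν hy hψ hD
  have h2 : (2 : F) ≠ 0 := Ring.two_ne_zero hF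
  obtain ⟨lam, μ, e, f, hlam, hμ, hef, hb⟩ := hD
  obtain ⟨x₀, hx₀⟩ := hψ
  have hν := hy.ne
  have hye : ∀ i, y (e i) = lam⁻¹ • e i := fun i => by
    rw [eq_inv_smul_iff₀ hlam]
    exact (hef i).1
  have hyf : ∀ i, y (f i) = lam⁻¹ • f i := fun i => by
    rw [eq_inv_smul_iff₀ hlam]
    exact (hef i).2
  have hlm : lam⁻¹ * (lam⁻¹ * μ) = ν * ψ μ := by
    have h := hy.form (e 0) (f 0)
    rw [hye, hyf] at h
    simp only [map_smul, LinearMap.smul_apply, smul_eq_mul] at h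
    rw [(hb 0 0).2.2, if_pos rfl] at h
    exact h
  have h00 : B (e 0) (e 0) = 0 := (hb 0 0).1
  have h01 : B (e 0) (e 1) = 0 := (hb 0 1).1
  have hc : ∀ c : F, B (e 0) (c • e 1) = 0 := fun c => by
    rw [map_smul, h01, smul_zero]
  set x : F := x₀ / μ with hx
  have hμx : μ * x = x₀ := by
    rw [hx]
    field_simp
  set k : F := lam⁻¹ * (ν⁻¹ * (ψ x * lam⁻¹)) - x with hk
  have hk0 : k ≠ 0 := by
    intro h0
    apply hx₀
    have h3 : lam⁻¹ * lam⁻¹ = ν * ψ μ / μ := by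
      rw [eq_div_iff hμ, mul_assoc]
      exact hlm
    have h4 : lam⁻¹ * (ν⁻¹ * (ψ x * lam⁻¹)) = ψ x * ψ μ / μ := by
      calc lam⁻¹ * (ν⁻¹ * (ψ x * lam⁻¹)) = (lam⁻¹ * lam⁻¹) * ν⁻¹ * ψ x := by ring
        _ = ψ x * ψ μ / μ := by
          rw [h3]
          field_simp
    rw [hk, h4, sub_eq_zero] at h0
    have h5 : ψ x₀ = ψ x * ψ μ := by rw [← hμx, map_mul, mul_comm]
    rw [h5]
    rw [div_eq_iff hμ] at h0
    rw [h0, mul_comm, hμx]
  have he0 : e 0 ≠ 0 := by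
    intro h0
    have h3 := (hb 0 0).2.2
    rw [h0, if_pos rfl, map_zero, LinearMap.zero_apply] at h3
    exact hμ h3.symm
  have hne : ∀ c : F, k • e 1 ≠ c • e 0 := by
    intro c h0
    have h3 : B (k • e 1) (f 1) = B (c • e 0) (f 1) := by rw [h0]
    simp only [map_smul, LinearMap.smul_apply, smul_eq_mul] at h3
    rw [(hb 1 1).2.2, (hb 0 1).2.2, if_pos rfl, if_neg (by decide), mul_zero] at h3
    exact mul_ne_zero hk0 hμ h3
  have hcomm : y * sg B (e 0) (x • e 1) * y⁻¹ * (sg B (e 0) (x • e 1))⁻¹ = sg B (e 0) (k • e 1) := by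
    rw [sg_conj hB h2 hy h00 (hc x), sg_inv hB h2 h00 (hc x), hy.smul, hye, hye, ← neg_smul,
      smul_smul, smul_smul, PPS_smul hB h2 _ h00 (hc _), smul_smul, sg_add hB h2 h00 (hc _) (hc _),
      ← add_smul, ← sub_eq_add_neg, hk, mul_assoc ν⁻¹ (ψ x) lam⁻¹]
  have hOm : sg B (e 0) (x • e 1) ∈ Om B := sgo B hF hB hn _ _ h00 (hc x)
  have hz := sgu B hF hB (e 0) (k • e 1) h00 (hc k) he0 hne
  refine ⟨sg B (e 0) (k • e 1), sgo B hF hB hn _ _ h00 (hc k), ?_, hz.1, hz.2⟩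
  rw [← hcomm]
  exact Gn.comm hOm

end Pool.Agent.ORT
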